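import Mathlib
import Pool.Agent.Work.MP_66aaa3_co.Final

namespace Pool.Agent.Results.MP_66aaa3_co.Full

open SimpleGraph

/-- The join of two graphs: their disjoint union together with all edges between the two sides. -/
def Join {α β : Type} (G : SimpleGraph α) (H : SimpleGraph β) : SimpleGraph (α ⊕ β) :=
  (G ⊕g H) ⊔ completeBipartiteGraph α β

/-- The graph `K_k ∨ (K_2 ∪ (n - k - 2) K_1)`. -/
def Extremal (k n : ℕ) : SimpleGraph (Fin k ⊕ (Fin 2 ⊕ Fin (n - k - 2))) :=
  Join (⊤ : SimpleGraph (Fin k)) ((⊤ : SimpleGraph (Fin 2)) ⊕g (⊥ : SimpleGraph (Fin (n - k - 2))))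

/-- 2-connected: at least three vertices, connected, and still connected after deleting any one
vertex. -/
def TwoConnected {n : ℕ} (G : SimpleGraph (Fin n)) : Prop :=
  3 ≤ n ∧ G.Connected ∧ ∀ v : Fin n, (G.induce ({v}ᶜ : Set (Fin n))).Connected

/-- `G` has no cycle whose length is congruent to `2` modulo `m`. -/
def NoCycleTwoMod {n : ℕ} (G : SimpleGraph (Fin n)) (m : ℕ) : Prop :=
  ∀ (v : Fin n) (c : G.Walk v v), c.IsCycle → ¬ c.length ≡ 2 [MOD m]

open Pool.Agent.Work.MP_66aaa3_co Finset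

lemma str_of_iso {V : Type} {G : SimpleGraph V} {k n : ℕ} (φ : G ≃g Extremal k n) : Str G k := by
  classical
  refine ⟨univ.map ⟨fun a => φ.symm (Sum.inl a), fun a b e => by simpa using e⟩,
    φ.symm (Sum.inr (Sum.inl 0)), φ.symm (Sum.inr (Sum.inl 1)), by simp, by simp, by simp, by simp,
    fun u v => ?_⟩
  obtain ⟨u, rfl⟩ := φ.symm.surjective u
  obtain ⟨v, rfl⟩ := φ.symm.surjective v
  rw [φ.symm.map_adj_iff]
  rcases u with u | u | u <;> rcases v with v | v | v <;> simp [Extremal, Join]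
  omega

lemma iso_of_str {n k : ℕ} {G : SimpleGraph (Fin n)} (h : Str G k) :
    Nonempty (G ≃g Extremal k n) := by
  classical
  obtain ⟨A, s, s', hA, hs, hs', hne, h⟩ := h
  have hd : Disjoint A {s, s'} := by
    rw [Finset.disjoint_right]; intro v hv
    rw [mem_insert, mem_singleton] at hv
    rcases hv with rfl | rfl <;> assumption
  have e2 := card_sdiff_add_card_eq_card (subset_univ (A ∪ {s, s'}))
  rw [card_union_of_disjoint hd, card_pair hne, hA, card_univ, Fintype.card_fin] at e2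
  set B := univ \ (A ∪ {s, s'}) with hB
  have hB' : ∀ v, v ∈ B ↔ v ∉ A ∧ v ≠ s ∧ v ≠ s' := by
    intro v; simp only [hB, mem_sdiff, mem_univ, mem_union, mem_insert, mem_singleton]; tauto
  let a : Fin k ≃ A := (A.equivFinOfCardEq hA).symm
  let b : Fin (n - k - 2) ≃ B := (B.equivFinOfCardEq (by omega)).symm
  let f : Fin k ⊕ (Fin 2 ⊕ Fin (n - k - 2)) → Fin n :=
    Sum.elim (fun i => a i) (Sum.elim ![s, s'] fun i => b i)
  have ha : ∀ i, (a i : Fin n) ∈ A := fun i => (a i).2
  have hb1 : ∀ i, (b i : Fin n) ∉ A := fun i => ((hB' _).1 (b i).2).1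
  have hb2 : ∀ i, (b i : Fin n) ≠ s := fun i => ((hB' _).1 (b i).2).2.1
  have hb3 : ∀ i, (b i : Fin n) ≠ s' := fun i => ((hB' _).1 (b i).2).2.2
  have ha1 : ∀ i, (a i : Fin n) ≠ s := fun i e => hs (e ▸ ha i)
  have ha2 : ∀ i, (a i : Fin n) ≠ s' := fun i e => hs' (e ▸ ha i)
  have hab : ∀ i j, (a i : Fin n) ≠ b j := fun i j e => hb1 j (e ▸ ha i)
  have hinj : Function.Injective f := by
    intro u v e
    rcases u with u | u | u <;> rcases v with v | v | v <;>
      simp only [f, Sum.elim_inl, Sum.elim_inr] at e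
    · rw [a.injective (Subtype.ext e)]
    · fin_cases v
      · exact absurd e (ha1 _)
      · exact absurd e (ha2 _)
    · exact absurd e (hab _ _)
    · fin_cases u
      · exact absurd e.symm (ha1 _)
      · exact absurd e.symm (ha2 _)
    · fin_cases u <;> fin_cases v
      · rfl
      · exact absurd e hne
      · exact absurd e.symm hne
      · rfl
    · fin_cases u
      · exact absurd e.symm (hb2 _)
      · exact absurd e.symm (hb3 _)
    · exact absurd e.symm (hab _ _)
    · fin_cases v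
      · exact absurd e (hb2 _)
      · exact absurd e (hb3 _)
    · rw [b.injective (Subtype.ext e)]
  have hbij : Function.Bijective f := by
    rw [Fintype.bijective_iff_injective_and_card]
    refine ⟨hinj, ?_⟩
    simp only [Fintype.card_sum, Fintype.card_fin]
    omega
  refine ⟨Iso.symm ⟨Equiv.ofBijective f hbij, ?_⟩⟩
  intro u v
  rw [Equiv.ofBijective_apply, Equiv.ofBijective_apply, h, hinj.ne_iff]
  rcases u with u | u | u <;> rcases v with v | v | v <;>
    simp [f, Extremal, Join, ha, hb1, hb2, hb3]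
  · fin_cases u <;> fin_cases v <;> simp [hs, hs', hne, hne.symm]
  · fin_cases u <;> simp [hs, hs']
  · fin_cases v <;> simp [hs, hs']

theorem result (k : ℕ) (hk : 3 ≤ k) : ∃ n₀ : ℕ, ∀ n ≥ n₀,
    IsGreatest {e : ℕ | ∃ G : SimpleGraph (Fin n),
        TwoConnected G ∧ NoCycleTwoMod G (2 * k) ∧ G.edgeSet.ncard = e}
      (k.choose 2 + k * (n - k) + 1) ∧
    ∀ G : SimpleGraph (Fin n),
      (TwoConnected G ∧ NoCycleTwoMod G (2 * k) ∧
        G.edgeSet.ncard = k.choose 2 + k * (n - k) + 1) ↔ Nonempty (G ≃g Extremal k n) := by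
  obtain ⟨N, hN⟩ := fin_main k hk
  refine ⟨N + k + 2, fun n hn => ?_⟩
  have good : ∀ G : SimpleGraph (Fin n), Str G k → TwoConnected G ∧ NoCycleTwoMod G (2 * k) ∧
      G.edgeSet.ncard = k.choose 2 + k * (n - k) + 1 := fun G h =>
    ⟨⟨by omega, h.conn (by omega)⟩, h.cyc, by simpa using h.edges⟩
  have up : ∀ G : SimpleGraph (Fin n), TwoConnected G → NoCycleTwoMod G (2 * k) →
      k.choose 2 + k * (n - k) + 1 ≤ G.edgeSet.ncard → Str G k := fun G h1 h2 h3 =>
    hN (Fin n) G (by simp; omega) h1.2.2 h2 (by simpa using h3)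
  refine ⟨⟨?_, ?_⟩, fun G => ⟨fun h => iso_of_str (up G h.1 h.2.1 h.2.2.ge),
    fun ⟨φ⟩ => good G (str_of_iso φ)⟩⟩
  · have e : Fin n ≃ Fin k ⊕ (Fin 2 ⊕ Fin (n - k - 2)) := Fintype.equivOfCardEq (by simp; omega)
    exact ⟨(Extremal k n).comap e, good _ (str_of_iso (Iso.comap e _))⟩
  · rintro e ⟨G, h1, h2, rfl⟩
    by_contra hlt
    have := (good G (up G h1 h2 (by omega))).2.2
    omega

end Pool.Agent.Results.MP_66aaa3_co.Full
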